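import Pool.Agent.Helper85.REC.Stmts14
import Pool.Agent.Helper25.REC.CRG

/-!
# REC, SC2: residual representations of rank two with scalar powers
-/

set_option autoImplicit false

open scoped Classical
open NumberField Polynomial

namespace REC

open MU

/-- the subgroup of the elements congruent to `1` modulo `l ^ K` is normal -/
theorem sc2_normal {Γ : Type} [Group Γ] {n l : ℕ} [Fact l.Prime]
    (r : Γ →* Matrix.GeneralLinearGroup (Fin n) ℤ_[l]) (K : ℕ) (H : Subgroup Γ)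
    (hH : ∀ g, g ∈ H ↔ Cg K (r g : Matrix (Fin n) (Fin n) ℤ_[l])) : H.Normal := by
  constructor
  intro g hg x
  rw [hH] at hg ⊢
  have h1 : ((r (x * g * x⁻¹) : Matrix.GeneralLinearGroup (Fin n) ℤ_[l]) :
      Matrix (Fin n) (Fin n) ℤ_[l]) - 1 =
      (r x : Matrix (Fin n) (Fin n) ℤ_[l]) * ((r g : Matrix (Fin n) (Fin n) ℤ_[l]) - 1) *
        ((r x)⁻¹ : Matrix.GeneralLinearGroup (Fin n) ℤ_[l]) := by
    have h2 : (r x : Matrix (Fin n) (Fin n) ℤ_[l]) *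
        (((r x)⁻¹ : Matrix.GeneralLinearGroup (Fin n) ℤ_[l]) : Matrix (Fin n) (Fin n) ℤ_[l]) = 1 :=
      (r x).mul_inv
    rw [mul_sub, sub_mul, mul_one, h2, map_mul, map_mul, map_inv]
    rfl
  intro i j
  rw [h1, Matrix.mul_apply]
  refine Finset.dvd_sum fun a _ => Dvd.dvd.mul_right ?_ _
  rw [Matrix.mul_apply]
  exact Finset.dvd_sum fun b _ => Dvd.dvd.mul_left (hg b a) _

/-- SC2 -/
theorem st_SC2 (trm : ST_TRM) (_ : ST_TFR) (trp : ST_TRP) (sca : ST_SCA) (clf : ST_CLF) :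
    ST_SC2 := by
  intro F _ _ S hS w h M hss N hN hyp
  obtain ⟨Q, hQ⟩ := crg_dsc N
  have h2 := trm F S hS 2 w h M Set.univ isOpen_univ Q (fun c => by
    obtain ⟨l, hl, hc, ha⟩ := hyp c
    refine ⟨l, hl, hc, fun σ _ => ?_⟩
    obtain ⟨a, ha⟩ := ha σ
    rw [hQ, ha, dsc]
    simp
    ring)
  have hp2 : Fact (Nat.Prime 2) := ⟨Nat.prime_two⟩
  obtain ⟨K, hK⟩ : ∃ K : ℕ, ¬ ((2 : ℕ) : ℤ_[2]) ^ K ∣ ((N : ℕ) : ℤ_[2]) := by
    have hN0 : ((N : ℕ) : ℤ_[2]) ≠ 0 := by exact_mod_cast hN.ne'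
    refine ⟨((N : ℕ) : ℤ_[2]).valuation + 1, ?_⟩
    rw [← Ideal.mem_span_singleton, PadicInt.mem_span_pow_iff_le_valuation _ hN0]
    omega
  obtain ⟨H, hH, hHm⟩ := gl_open (M.ρ 2) (M.continuous 2) K
  have hn := sc2_normal (M.ρ 2) K H hHm
  have h3 : ∀ σ ∈ H, dsc (M.ρ 2 σ : Matrix (Fin 2) (Fin 2) ℤ_[2]) = 0 := by
    intro σ hσ
    have h3 := h2 2 σ (Set.mem_univ σ)
    rw [hQ] at h3
    obtain ⟨U, V, h4, h5⟩ := gl_pow_eq (M.ρ 2 σ : Matrix (Fin 2) (Fin 2) ℤ_[2]) N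
    obtain ⟨h6, -⟩ := h5 _ ((hHm σ).mp hσ)
    have hU : U ≠ 0 := by
      rintro rfl
      rw [zero_sub, dvd_neg] at h6
      exact hK h6
    rw [h4, dsc_lin] at h3
    exact (mul_eq_zero.mp h3).resolve_left (pow_ne_zero 2 hU)
  obtain ⟨Q1, hQ1⟩ := crg_dsc 1
  have h7 : ∀ (l : ℕ) [Fact l.Prime], ∀ σ ∈ H,
      dsc (M.ρ l σ : Matrix (Fin 2) (Fin 2) ℤ_[l]) = 0 := by
    intro l _ σ hσ
    have h8 := trp F S hS 2 w h M H hH Q1 2 l (fun σ hσ => by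
      rw [hQ1, pow_one]
      exact h3 σ hσ) σ hσ
    rwa [hQ1, pow_one] at h8
  refine ⟨hss, H, hH, fun l _ g hg g' hg' => ?_⟩
  have h9 : IsSS ((rat (M.ρ l)).comp H.subtype) :=
    clf (Gal F) H ℚ_[l] H.subtype 2 (rat (M.ρ l)) (by rwa [Subgroup.range_subtype]) (hss l)
  have h10 := sca H ℚ_[l] _ h9 (fun g => by
    have := h7 l g g.2
    rw [dsc_eq, sub_eq_zero] at this
    change (rat (M.ρ l) (g : Gal F)).trace ^ 2 = 4 * (rat (M.ρ l) (g : Gal F)).det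
    rw [(irb_rat _ _).1, (irb_rat _ _).2, ← map_pow, this, map_mul, map_ofNat])
  obtain ⟨a, ha⟩ := h10 ⟨g, hg⟩
  have ha' : rat (M.ρ l) g = a • (1 : Matrix (Fin 2) (Fin 2) ℚ_[l]) := ha
  have h11 : rat (M.ρ l) g * rat (M.ρ l) g' = rat (M.ρ l) g' * rat (M.ρ l) g := by
    rw [ha']
    simp
  rw [← map_mul, ← map_mul] at h11
  apply Matrix.GeneralLinearGroup.ext
  intro i j
  rw [← map_mul, ← map_mul]
  exact (IsFractionRing.injective ℤ_[l] ℚ_[l]) (congrFun (congrFun h11 i) j)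

end REC
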