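import Pool.Agent.Helper85.REC.Stmts13
import Pool.Agent.Helper48.REC.HKL

/-!
# REC, SLD: elements of `SL_d(ℤ_l)` without partial products of eigenvalues in `ℚ_l`
-/

set_option autoImplicit false

open scoped Classical
open NumberField Polynomial

namespace REC

open Pool.Agent.Helper13.ZL (Pl q)
open MU

/-- extension of a homomorphism to an algebraically closed field to an integral extension -/
theorem sld_ext {R S k : Type} [CommRing R] [IsDomain R] [CommRing S] [IsDomain S] [Algebra R S]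
    [Algebra.IsIntegral R S] (hinj : Function.Injective (algebraMap R S)) [Field k]
    [IsAlgClosed k] (κ : R →+* k) : ∃ θ : S →+* k, ∀ x, θ (algebraMap R S x) = κ x := by
  have hP : (RingHom.ker κ).IsPrime := RingHom.ker_isPrime _
  have hker : RingHom.ker (algebraMap R S) ≤ RingHom.ker κ := by
    intro a ha
    have h2 : a = 0 := hinj (by rw [RingHom.mem_ker.1 ha, map_zero])
    rw [h2]
    exact Ideal.zero_mem _
  obtain ⟨Q, hQ, hQP⟩ :=
    Ideal.exists_ideal_over_prime_of_isIntegral_of_isDomain (S := S) (RingHom.ker κ) hker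
  have hQl : Q.LiesOver (RingHom.ker κ) := ⟨hQP.symm⟩
  let := (RingHom.kerLift κ).toAlgebra
  have h1 : Module.IsTorsionFree (R ⧸ RingHom.ker κ) k := by
    have h2 : Function.Injective (algebraMap (R ⧸ RingHom.ker κ) k) := RingHom.kerLift_injective κ
    have h6 := (faithfulSMul_iff_algebraMap_injective _ _).2 h2
    exact Module.isTorsionFree_iff_faithfulSMul.2 h6
  have h3 : Module.IsTorsionFree (R ⧸ RingHom.ker κ) (S ⧸ Q) := by
    have h7 : FaithfulSMul (R ⧸ RingHom.ker κ) (S ⧸ Q) := inferInstance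
    exact Module.isTorsionFree_iff_faithfulSMul.2 h7
  have h8 : Algebra.IsIntegral (R ⧸ RingHom.ker κ) (S ⧸ Q) := inferInstance
  have h4 : Algebra.IsAlgebraic (R ⧸ RingHom.ker κ) (S ⧸ Q) := inferInstance
  let φ : (S ⧸ Q) →ₐ[R ⧸ RingHom.ker κ] k := IsAlgClosed.lift
  refine ⟨φ.toRingHom.comp (Ideal.Quotient.mk Q), fun x => ?_⟩
  have h5 : Ideal.Quotient.mk Q (algebraMap R S x) =
      algebraMap (R ⧸ RingHom.ker κ) (S ⧸ Q) (Ideal.Quotient.mk _ x) := rfl
  change φ (Ideal.Quotient.mk Q (algebraMap R S x)) = _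
  rw [h5, φ.commutes]
  rfl

/-- a matrix over `ℤ_[l]` whose reduction has a given characteristic polynomial -/
theorem sld_comp (d l : ℕ) [Fact l.Prime] (f : (ZMod l)[X]) (hf : f.Monic)
    (hd : f.natDegree = d) :
    ∃ C : Matrix (Fin d) (Fin d) ℤ_[l],
      (C.map (PadicInt.toZMod : ℤ_[l] →+* ZMod l)).charpoly = f := by
  obtain ⟨M, hM⟩ : ∃ M : Matrix (Fin d) (Fin d) (ZMod l), M.charpoly = f := by
    have hB : (AdjoinRoot.powerBasis hf.ne_zero).dim = d := by
      rw [AdjoinRoot.powerBasis_dim, hd]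
    refine ⟨Matrix.reindex (finCongr hB) (finCongr hB)
      (Algebra.leftMulMatrix (AdjoinRoot.powerBasis hf.ne_zero).basis
        (AdjoinRoot.powerBasis hf.ne_zero).gen), ?_⟩
    rw [Matrix.charpoly_reindex, charpoly_leftMulMatrix,
      AdjoinRoot.minpoly_powerBasis_gen_of_monic hf]
  have hs : Function.Surjective (PadicInt.toZMod : ℤ_[l] →+* ZMod l) :=
    ZMod.ringHom_surjective _
  choose g hg using hs
  refine ⟨M.map g, ?_⟩
  have h1 : (M.map g).map (PadicInt.toZMod : ℤ_[l] →+* ZMod l) = M := by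
    ext i j
    simp [hg]
  rw [h1, hM]

/-- correction of the determinant -/
theorem sld_det (d l N : ℕ) [Fact l.Prime] (hd : 2 ≤ d) (hN : 1 ≤ N)
    (C0 : Matrix (Fin d) (Fin d) ℤ_[l]) (z : ℤ_[l]) (hz : C0.trace = l * z) :
    ∃ Z : Matrix (Fin d) (Fin d) ℤ_[l],
      (1 + (l : ℤ_[l]) ^ N • (C0 + (l : ℤ_[l]) • Z)).det = 1 := by
  obtain ⟨w, hw⟩ : ∃ w : ℤ_[l], (1 + (l : ℤ_[l]) ^ N • C0).det = 1 + (l : ℤ_[l]) ^ (N + 1) * w := by
    rw [Matrix.det_one_add_smul, hz]
    obtain ⟨n, rfl⟩ : ∃ n, N = n + 1 := ⟨N - 1, by omega⟩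
    generalize Polynomial.eval ((l : ℤ_[l]) ^ (n + 1)) _ = y
    exact ⟨z + y * (l : ℤ_[l]) ^ n, by ring⟩
  have hu : IsUnit ((1 + (l : ℤ_[l]) ^ N • C0).det) := by
    by_contra h
    have h2 : ‖(1 + (l : ℤ_[l]) ^ N • C0).det‖ < 1 := PadicInt.mem_nonunits.1 h
    rw [PadicInt.norm_lt_one_iff_dvd] at h2
    have h3 : (l : ℤ_[l]) ∣ 1 := by
      rw [hw] at h2
      have h4 : (l : ℤ_[l]) ∣ (l : ℤ_[l]) ^ (N + 1) * w :=
        Dvd.dvd.mul_right (dvd_pow_self _ (by omega)) _
      exact (dvd_add_left h4).1 h2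
    exact PadicInt.prime_p.not_dvd_one h3
  obtain ⟨v, hv⟩ := hu.exists_right_inv
  have hv2 : v = 1 + (l : ℤ_[l]) ^ (N + 1) * (-(w * v)) := by
    rw [hw] at hv
    linear_combination hv
  let i0 : Fin d := ⟨0, by omega⟩
  let G : Matrix (Fin d) (Fin d) ℤ_[l] := Matrix.diagonal (Pi.single i0 (-(w * v)))
  let E : Matrix (Fin d) (Fin d) ℤ_[l] := Matrix.diagonal (Function.update 1 i0 v)
  have hE : E = 1 + (l : ℤ_[l]) ^ (N + 1) • G := by
    ext i j
    by_cases hij : i = j
    · subst hij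
      by_cases hi : i = i0
      · subst hi
        simpa [E, G] using hv2
      · simp [E, G, hi]
    · simp [E, G, hij]
  have hE2 : E.det = v := by
    simp [E, Matrix.det_diagonal, Finset.prod_update_of_mem]
  refine ⟨G * (1 + (l : ℤ_[l]) ^ N • C0), ?_⟩
  have h5 : 1 + (l : ℤ_[l]) ^ N • (C0 + (l : ℤ_[l]) • (G * (1 + (l : ℤ_[l]) ^ N • C0))) =
      E * (1 + (l : ℤ_[l]) ^ N • C0) := by
    rw [hE, add_mul, one_mul, smul_add, smul_smul, ← pow_succ, smul_mul_assoc, add_assoc]
  rw [h5, Matrix.det_mul, hE2, mul_comm, hv]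

/-- the product of the `1 + L a_i` -/
theorem sld_prod {A ι : Type} [CommRing A] (L : A) (s : Finset ι) (a : ι → A) (m : ℕ) :
    ∃ z : A, ∏ i ∈ s, (1 + L * a i) ^ m = 1 + L * (m * ∑ i ∈ s, a i + L * z) := by
  have h1 : ∃ z : A, ∏ i ∈ s, (1 + L * a i) = 1 + L * (∑ i ∈ s, a i + L * z) := by
    induction s using Finset.induction_on with
    | empty => exact ⟨0, by simp⟩
    | insert i s hi ih =>
      obtain ⟨z, hz⟩ := ih
      rw [Finset.prod_insert hi, hz, Finset.sum_insert hi]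
      exact ⟨z + a i * (∑ i ∈ s, a i + L * z), by ring⟩
  obtain ⟨z, hz⟩ := h1
  rw [Finset.prod_pow, hz]
  generalize ∑ i ∈ s, a i = b
  induction m with
  | zero => exact ⟨0, by simp⟩
  | succ m ih =>
    obtain ⟨y, hy⟩ := ih
    rw [pow_succ, hy]
    refine ⟨y + z + (m * b + L * y) * (b + L * z), ?_⟩
    push_cast
    ring

theorem sld_le_map {ι A : Type} (a : ι → A) (s : Multiset A) :
    ∀ t : Multiset ι, s ≤ t.map a → ∃ u ≤ t, s = u.map a := by
  induction s using Multiset.induction with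
  | empty => exact fun t _ => ⟨0, Multiset.zero_le _, rfl⟩
  | cons b s ih =>
    intro t h
    obtain ⟨i, hi, rfl⟩ := Multiset.mem_map.1 (Multiset.mem_of_le h (Multiset.mem_cons_self b s))
    obtain ⟨t', rfl⟩ := Multiset.exists_cons_of_mem hi
    rw [Multiset.map_cons, Multiset.cons_le_cons_iff] at h
    obtain ⟨u, hu, rfl⟩ := ih t' h
    exact ⟨i ::ₘ u, (Multiset.cons_le_cons_iff i).2 hu, by rw [Multiset.map_cons]⟩

/-- a multiset below the image of a family comes from a finite set of indices -/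
theorem sld_sub {ι A : Type} [Fintype ι] (a : ι → A) (s : Multiset A)
    (h : s ≤ Finset.univ.val.map a) : ∃ J : Finset ι, s = J.val.map a := by
  obtain ⟨u, hu, rfl⟩ := sld_le_map a s _ h
  exact ⟨⟨u, Multiset.nodup_of_le hu Finset.univ.nodup⟩, rfl⟩

theorem sld_roots {L : Type} [Field L] [IsAlgClosed L] {r : ℕ} (A : Matrix (Fin r) (Fin r) L)
    (c : L) : (1 + c • A).charpoly.roots = A.charpoly.roots.map fun a => 1 + c * a := by
  have h1 : (1 + c • A).charpoly =
      ((A.charpoly.roots.map fun a => 1 + c * a).map fun b => Polynomial.X - Polynomial.C b).prod := by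
    refine Polynomial.funext fun x => ?_
    rw [Matrix.eval_charpoly, Polynomial.eval_multiset_prod, Multiset.map_map, Multiset.map_map]
    have h2 : Matrix.scalar (Fin r) x - (1 + c • A) =
        (x - 1) • (1 : Matrix (Fin r) (Fin r) L) - c • A := by
      ext i j
      by_cases hij : i = j
      · subst hij
        simp [Matrix.scalar]
        ring
      · simp [Matrix.scalar, hij]
    rw [h2, hkl_det]
    congr 1
    refine Multiset.map_congr rfl fun a _ => ?_
    simp
    ring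
  rw [h1, Polynomial.roots_multiset_prod_X_sub_C]

/-- SLD -/
theorem st_SLD : ST_YFF → ST_SLD := by
  intro hY d l N m _ hd hl hlm hN
  obtain ⟨y, f, hf, hfd, hfc, hfy, hbad⟩ := hY d l hd hl
  obtain ⟨C0, hC0⟩ := sld_comp d l f hf hfd
  have hne : Nonempty (Fin d) := ⟨⟨0, by omega⟩⟩
  -- the trace
  obtain ⟨z0, hz0⟩ : ∃ z : ℤ_[l], C0.trace = l * z := by
    have h1 : (PadicInt.toZMod : ℤ_[l] →+* ZMod l) C0.trace = 0 := by
      have h2 : (C0.map (PadicInt.toZMod : ℤ_[l] →+* ZMod l)).trace = 0 := by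
        rw [Matrix.trace_eq_neg_charpoly_coeff, hC0]
        simp [hfc]
      rw [← h2, Matrix.trace, Matrix.trace, map_sum]
      rfl
    have h3 : C0.trace ∈ RingHom.ker (PadicInt.toZMod : ℤ_[l] →+* ZMod l) := h1
    rw [PadicInt.ker_toZMod, PadicInt.maximalIdeal_eq_span_p, Ideal.mem_span_singleton] at h3
    exact h3
  obtain ⟨Z, hZ⟩ := sld_det d l N hd hN C0 z0 hz0
  refine ⟨C0 + (l : ℤ_[l]) • Z, hZ, ?_⟩
  intro C' Y hC' s hs hs0 hsd b hb
  have hm0 : 0 < m := Nat.pos_of_ne_zero fun h => hlm (h ▸ dvd_zero l)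
  have hl0 : (PadicInt.toZMod : ℤ_[l] →+* ZMod l) (l : ℤ_[l]) = 0 := by
    rw [map_natCast, ZMod.natCast_self]
  -- the reduction of `C'`
  have hred : C'.map (PadicInt.toZMod : ℤ_[l] →+* ZMod l) =
      C0.map (PadicInt.toZMod : ℤ_[l] →+* ZMod l) := by
    rw [hC']
    ext i j
    simp only [Matrix.map_apply, Matrix.add_apply, Matrix.smul_apply, smul_eq_mul, map_add,
      map_mul, hl0, zero_mul, add_zero]
  have hchar : C'.charpoly.map (PadicInt.toZMod : ℤ_[l] →+* ZMod l) = f := by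
    rw [← Matrix.charpoly_map, hred, hC0]
  -- the ring of integers
  have hinjK : Function.Injective (algebraMap ℤ_[l] (AlgebraicClosure ℚ_[l])) := by
    rw [IsScalarTower.algebraMap_eq ℤ_[l] ℚ_[l] (AlgebraicClosure ℚ_[l])]
    exact (algebraMap ℚ_[l] (AlgebraicClosure ℚ_[l])).injective.comp
      (IsFractionRing.injective ℤ_[l] ℚ_[l])
  have hinj : Function.Injective
      (algebraMap ℤ_[l] (integralClosure ℤ_[l] (AlgebraicClosure ℚ_[l]))) :=
    fun a b h => hinjK (congrArg Subtype.val h)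
  obtain ⟨θ, hθ⟩ := sld_ext hinj ((algebraMap (ZMod l) (AlgebraicClosure (ZMod l))).comp
    (PadicInt.toZMod : ℤ_[l] →+* ZMod l))
  -- the eigenvalues of `C'`
  obtain ⟨r, hr⟩ : ∃ r : Fin d → AlgebraicClosure ℚ_[l],
      (C'.map (algebraMap ℤ_[l] (AlgebraicClosure ℚ_[l]))).charpoly.roots =
        Finset.univ.val.map r := by
    have h1 := hkl_card (C'.map (algebraMap ℤ_[l] (AlgebraicClosure ℚ_[l])))
    revert h1
    generalize (C'.map (algebraMap ℤ_[l] (AlgebraicClosure ℚ_[l]))).charpoly.roots = t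
    intro h1
    obtain ⟨L, rfl⟩ := Quot.exists_rep t
    have h2 : L.length = d := h1
    subst h2
    refine ⟨L.get, ?_⟩
    rw [Fin.univ_val_map, List.ofFn_get]
    rfl
  have hprodK : C'.charpoly.map (algebraMap ℤ_[l] (AlgebraicClosure ℚ_[l])) =
      ∏ i, (Polynomial.X - Polynomial.C (r i)) := by
    rw [← Matrix.charpoly_map]
    conv_lhs => rw [(IsAlgClosed.splits (C'.map (algebraMap ℤ_[l]
      (AlgebraicClosure ℚ_[l]))).charpoly).eq_prod_roots_of_monic (Matrix.charpoly_monic _)]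
    rw [hr, Multiset.map_map]
    rfl
  have hint : ∀ i, IsIntegral ℤ_[l] (r i) := by
    intro i
    refine ⟨C'.charpoly, Matrix.charpoly_monic _, ?_⟩
    rw [← Polynomial.eval_map, hprodK, Polynomial.eval_prod]
    exact Finset.prod_eq_zero (Finset.mem_univ i) (by simp)
  let c : Fin d → integralClosure ℤ_[l] (AlgebraicClosure ℚ_[l]) := fun i => ⟨r i, hint i⟩
  have hprodO : C'.charpoly.map
      (algebraMap ℤ_[l] (integralClosure ℤ_[l] (AlgebraicClosure ℚ_[l]))) =
      ∏ i, (Polynomial.X - Polynomial.C (c i)) := by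
    have h1 : Function.Injective (integralClosure ℤ_[l] (AlgebraicClosure ℚ_[l])).val.toRingHom :=
      Subtype.val_injective
    apply Polynomial.map_injective _ h1
    rw [Polynomial.map_map, Polynomial.map_prod]
    have h2 : ((integralClosure ℤ_[l] (AlgebraicClosure ℚ_[l])).val.toRingHom).comp
        (algebraMap ℤ_[l] (integralClosure ℤ_[l] (AlgebraicClosure ℚ_[l]))) =
        algebraMap ℤ_[l] (AlgebraicClosure ℚ_[l]) := rfl
    rw [h2, hprodK]
    refine Finset.prod_congr rfl fun i _ => ?_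
    simp [c]
  have hprodk : ∏ i, (Polynomial.X - Polynomial.C (θ (c i))) =
      ∏ i, (Polynomial.X - Polynomial.C (y i)) := by
    have h3 : θ.comp (algebraMap ℤ_[l] (integralClosure ℤ_[l] (AlgebraicClosure ℚ_[l]))) =
        (algebraMap (ZMod l) (AlgebraicClosure (ZMod l))).comp
          (PadicInt.toZMod : ℤ_[l] →+* ZMod l) := RingHom.ext hθ
    rw [← hfy, ← hchar, Polynomial.map_map, ← h3, ← Polynomial.map_map, hprodO,
      Polynomial.map_prod]
    refine Finset.prod_congr rfl fun i _ => ?_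
    simp
  have hroots : Finset.univ.val.map (fun i => θ (c i)) = Finset.univ.val.map y := by
    have h4 := congrArg Polynomial.roots hprodk
    have h5 : ∀ g : Fin d → AlgebraicClosure (ZMod l),
        (∏ i, (Polynomial.X - Polynomial.C (g i))).roots = Finset.univ.val.map g := by
      intro g
      have h6 := Polynomial.roots_multiset_prod_X_sub_C (Finset.univ.val.map g)
      rw [Multiset.map_map] at h6
      exact h6
    rw [h5, h5] at h4
    exact h4
  -- the roots of the power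
  have hpow : ((((1 + (l : ℤ_[l]) ^ N • C') ^ m).map (algebraMap ℤ_[l] ℚ_[l])).charpoly.map
      (algebraMap ℚ_[l] (AlgebraicClosure ℚ_[l]))).roots =
      Finset.univ.val.map fun i => (1 + (l : AlgebraicClosure ℚ_[l]) ^ N * r i) ^ m := by
    have h1 : (((1 + (l : ℤ_[l]) ^ N • C') ^ m).map (algebraMap ℤ_[l] ℚ_[l])).charpoly.map
        (algebraMap ℚ_[l] (AlgebraicClosure ℚ_[l])) =
        ((1 + (l : AlgebraicClosure ℚ_[l]) ^ N •
          C'.map (algebraMap ℤ_[l] (AlgebraicClosure ℚ_[l]))) ^ m).charpoly := by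
      have h7 : (⇑(algebraMap ℚ_[l] (AlgebraicClosure ℚ_[l])) ∘ ⇑(algebraMap ℤ_[l] ℚ_[l])) =
          ⇑(algebraMap ℤ_[l] (AlgebraicClosure ℚ_[l])) := by
        rw [IsScalarTower.algebraMap_eq ℤ_[l] ℚ_[l] (AlgebraicClosure ℚ_[l])]
        rfl
      rw [← Matrix.charpoly_map, Matrix.map_map, h7]
      have h8 := map_pow (algebraMap ℤ_[l] (AlgebraicClosure ℚ_[l])).mapMatrix
        (1 + (l : ℤ_[l]) ^ N • C') m
      rw [RingHom.mapMatrix_apply, RingHom.mapMatrix_apply] at h8
      rw [h8]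
      congr 2
      ext i j
      by_cases hij : i = j
      · subst hij
        simp
      · simp [hij]
    rw [h1, hkl_roots_pow _ _ hm0, sld_roots, hr, Multiset.map_map, Multiset.map_map]
    rfl
  rw [hpow] at hs
  obtain ⟨J, hJ⟩ := sld_sub _ _ hs
  have hJc : J.card = s.card := by
    rw [hJ, Multiset.card_map]
    rfl
  obtain ⟨z, hz⟩ := sld_prod ((l : integralClosure ℤ_[l] (AlgebraicClosure ℚ_[l])) ^ N) J c m
  have hsp : s.prod = 1 + (l : AlgebraicClosure ℚ_[l]) ^ N *
      ((m * ∑ i ∈ J, c i + (l : integralClosure ℤ_[l] (AlgebraicClosure ℚ_[l])) ^ N * z :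
        integralClosure ℤ_[l] (AlgebraicClosure ℚ_[l])) : AlgebraicClosure ℚ_[l]) := by
    have h1 := congrArg (fun x : integralClosure ℤ_[l] (AlgebraicClosure ℚ_[l]) =>
      (integralClosure ℤ_[l] (AlgebraicClosure ℚ_[l])).val x) hz
    simp only [map_prod, map_pow, map_add, map_one, map_mul, map_natCast] at h1
    rw [hJ]
    exact h1
  -- the quotient `(b - 1) / l ^ N`
  set w : integralClosure ℤ_[l] (AlgebraicClosure ℚ_[l]) := m * ∑ i ∈ J, c i +
    (l : integralClosure ℤ_[l] (AlgebraicClosure ℚ_[l])) ^ N * z with hw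
  have hlK : (l : AlgebraicClosure ℚ_[l]) ^ N ≠ 0 := by
    have : (l : AlgebraicClosure ℚ_[l]) ≠ 0 := Nat.cast_ne_zero.2 (Fact.out : l.Prime).ne_zero
    exact pow_ne_zero _ this
  have hb' : algebraMap ℚ_[l] (AlgebraicClosure ℚ_[l]) ((b - 1) / (l : ℚ_[l]) ^ N) = (w : _) := by
    rw [map_div₀, map_sub, ← hb, hsp, map_one, map_pow, map_natCast]
    field_simp
    ring
  have hbi : IsIntegral ℤ_[l] ((b - 1) / (l : ℚ_[l]) ^ N) := by
    have h1 : IsIntegral ℤ_[l] (algebraMap ℚ_[l] (AlgebraicClosure ℚ_[l])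
        ((b - 1) / (l : ℚ_[l]) ^ N)) := by
      rw [hb']
      exact w.2
    exact (isIntegral_algebraMap_iff (algebraMap ℚ_[l] (AlgebraicClosure ℚ_[l])).injective).1 h1
  obtain ⟨β, hβ⟩ := IsIntegrallyClosed.isIntegral_iff.1 hbi
  have hwβ : w = algebraMap ℤ_[l] (integralClosure ℤ_[l] (AlgebraicClosure ℚ_[l])) β := by
    apply Subtype.ext
    rw [← hb', ← hβ]
    exact (IsScalarTower.algebraMap_apply ℤ_[l] ℚ_[l] (AlgebraicClosure ℚ_[l]) β).symm
  have hθl : θ (l : integralClosure ℤ_[l] (AlgebraicClosure ℚ_[l])) = 0 := by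
    rw [map_natCast, ← map_natCast (algebraMap (ZMod l) (AlgebraicClosure (ZMod l))),
      ZMod.natCast_self, map_zero]
  have hfin : (m : AlgebraicClosure (ZMod l)) * ∑ i ∈ J, θ (c i) =
      algebraMap (ZMod l) (AlgebraicClosure (ZMod l)) (PadicInt.toZMod β) := by
    have h1 := congrArg θ hwβ
    rw [hθ, hw, map_add, map_mul, map_mul, map_pow, hθl, zero_pow (by omega), zero_mul, add_zero,
      map_natCast, map_sum] at h1
    exact h1
  -- the other indices
  obtain ⟨J', hJ'⟩ : ∃ J' : Finset (Fin d), J.val.map (fun i => θ (c i)) = J'.val.map y := by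
    apply sld_sub
    rw [← hroots]
    exact Multiset.map_le_map (Finset.val_le_iff.2 (Finset.subset_univ J))
  have hJ'c : J'.card = J.card := by
    have := congrArg Multiset.card hJ'
    rw [Multiset.card_map, Multiset.card_map] at this
    exact this.symm
  have hJ's : ∑ i ∈ J, θ (c i) = ∑ i ∈ J', y i := congrArg Multiset.sum hJ'
  have hmz : (m : ZMod l) ≠ 0 := by
    rwa [Ne, ZMod.natCast_eq_zero_iff]
  refine hbad J' (Finset.card_pos.1 (by omega)) (fun h => ?_) ((m : ZMod l)⁻¹ * PadicInt.toZMod β) ?_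
  · rw [h, Finset.card_univ, Fintype.card_fin] at hJ'c
    omega
  · rw [map_mul, ← hfin, hJ's, map_inv₀, map_natCast, ← mul_assoc, inv_mul_cancel₀, one_mul]
    rw [← map_natCast (algebraMap (ZMod l) (AlgebraicClosure (ZMod l)))]
    exact (_root_.map_ne_zero _).2 hmz

end REC
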