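import Pool.Agent.Helper85.REC.Stmts9

/-!
# REC.ST_NED: the second case occurs for finitely many `l` only   [helper28]
-/

set_option autoImplicit false

open scoped Classical
open NumberField

namespace Pool.Agent.Helper28.REC9

open REC MU

lemma rat_coeff {G : Type} [Group G] {n l : ℕ} [Fact l.Prime]
    (r : G →* Matrix.GeneralLinearGroup (Fin n) ℤ_[l]) (g : G) (i : ℕ) :
    (rat r g).charpoly.coeff i =
      algebraMap ℤ_[l] ℚ_[l] ((r g : Matrix (Fin n) (Fin n) ℤ_[l]).charpoly.coeff i) := by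
  have h1 : rat r g = (r g : Matrix (Fin n) (Fin n) ℤ_[l]).map (algebraMap ℤ_[l] ℚ_[l]) := rfl
  rw [h1, Matrix.charpoly_map, Polynomial.coeff_map]

theorem st_NED (hTRM : ST_TRM) (hINV : ST_INV3) (hSYM : ST_SYM) (hHER : ST_HER) (_hFRB : ST_FRB) :
    ST_NED := by
  intro F _ _ S hS w h M hirr
  by_contra hcon
  push Not at hcon
  obtain ⟨Y₀, hYn, hYo, hY⟩ := hHER F ∅ (by simp) 2
  have hfin : Finite (Gal F ⧸ Y₀) := Subgroup.quotient_finite_of_isOpen Y₀ hYo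
  -- the subgroups
  have hE : ∀ c : ℕ, ∃ (l : ℕ) (_ : Fact l.Prime) (G' : Subgroup (Gal F)), c < l ∧ Y₀ ≤ G' ∧
      IsOpen (G' : Set (Gal F)) ∧ G'.index = 2 ∧
      ∀ σ : Gal F, σ ∉ G' →
        (res (M.ρ l) σ).charpoly.coeff 1 = -(res (M.ρ l) σ).charpoly.coeff 2 ^ 2 ∧
        (res (M.ρ l) σ).charpoly.coeff 0 = -(res (M.ρ l) σ).charpoly.coeff 2 ^ 3 := by
    intro c
    obtain ⟨l, hl, hcl, G', hG'o, hG'2, hG'i, hG'⟩ := hcon c
    refine ⟨l, hl, G', hcl, ?_, hG'o, hG'2, hG'⟩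
    refine hY G' (Subgroup.normal_of_index_eq_two hG'2) (Subgroup.isClosed_of_isOpen G' hG'o)
      (by rw [hG'2]; norm_num) (by rw [hG'2]) ?_
    intro p hp _ 𝔓 hO σ hσ
    exact hG'i p hp 𝔓 hO σ hσ
  choose l hl G' hcl hle hopen hidx hchar using hE
  -- the same subgroup for infinitely many `l`
  have hfin2 : Finite (Subgroup (Gal F ⧸ Y₀)) := inferInstance
  obtain ⟨K, hK⟩ := Finite.exists_infinite_fiber
    (fun c : ℕ => (G' c).map (QuotientGroup.mk' Y₀))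
  have hKc : ∀ c : ℕ, (G' c).map (QuotientGroup.mk' Y₀) = K → G' c = K.comap (QuotientGroup.mk' Y₀) := by
    intro c hc
    rw [← hc, Subgroup.comap_map_eq_self]
    rw [QuotientGroup.ker_mk']
    exact hle c
  set G₀ : Subgroup (Gal F) := K.comap (QuotientGroup.mk' Y₀) with hG₀
  have hinf : ∀ c : ℕ, ∃ d : ℕ, c ≤ d ∧ G' d = G₀ := by
    intro c
    have hinf' : ((fun c : ℕ => (G' c).map (QuotientGroup.mk' Y₀)) ⁻¹' {K}).Infinite :=
      Set.infinite_coe_iff.1 hK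
    obtain ⟨d, hd, hcd⟩ := hinf'.exists_gt c
    exact ⟨d, hcd.le, hKc d hd⟩
  obtain ⟨d₀, _, hd₀⟩ := hinf 0
  have hG₀o : IsOpen (G₀ : Set (Gal F)) := hd₀ ▸ hopen d₀
  have hG₀2 : G₀.index = 2 := hd₀ ▸ hidx d₀
  have hU : IsOpen ((G₀ : Set (Gal F))ᶜ) :=
    (Subgroup.isClosed_of_isOpen G₀ hG₀o).isOpen_compl
  have h5 : Fact (Nat.Prime 5) := ⟨by norm_num⟩
  have hQ1 := hTRM F S hS 3 w h M ((G₀ : Set (Gal F))ᶜ) hU
    (MvPolynomial.X 1 + MvPolynomial.X 2 ^ 2) (by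
      intro c
      obtain ⟨d, hcd, hd⟩ := hinf c
      refine ⟨l d, hl d, lt_of_le_of_lt hcd (hcl d), ?_⟩
      intro σ hσ
      have := (hchar d σ (by rw [hd]; exact hσ)).1
      simp only [map_add, map_pow, MvPolynomial.aeval_X]
      rw [this]
      ring) 5
  have hQ2 := hTRM F S hS 3 w h M ((G₀ : Set (Gal F))ᶜ) hU
    (MvPolynomial.X 0 + MvPolynomial.X 2 ^ 3) (by
      intro c
      obtain ⟨d, hcd, hd⟩ := hinf c
      refine ⟨l d, hl d, lt_of_le_of_lt hcd (hcl d), ?_⟩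
      intro σ hσ
      have := (hchar d σ (by rw [hd]; exact hσ)).2
      simp only [map_add, map_pow, MvPolynomial.aeval_X]
      rw [this]
      ring) 5
  obtain ⟨ψ, hψ⟩ := hSYM F S hS 3 w h M (by decide) 5 (hirr 5)
  refine hINV (Gal F) ℚ_[5] two_ne_zero (rat (M.ρ 5)) ψ _ hψ G₀ hG₀2 ?_ (hirr 5)
  intro g hg
  have e1 := hQ1 g hg
  have e2 := hQ2 g hg
  simp only [map_add, map_pow, MvPolynomial.aeval_X] at e1 e2
  simp only [rat_coeff]
  constructor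
  · rw [eq_neg_of_add_eq_zero_left e1, map_neg, map_pow]
  · rw [eq_neg_of_add_eq_zero_left e2, map_neg, map_pow]

end Pool.Agent.Helper28.REC9
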