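import Pool.Agent.Helper57.REC.Stmts1

set_option autoImplicit false

/-!
Project REC, module RCG: the ray class group is finite.
-/

open scoped Classical
open NumberField nonZeroDivisors

namespace Pool.Agent.Helper28.RC

open Pool.Agent.Helper13.ZL (Pl q HasMean)
open REC

variable {F : Type} [Field F] [NumberField F]

theorem ray_one (B : Finset (Pl F)) (N : ℕ) : Ray B N (1 : 𝓞 F) := by
  refine ⟨one_ne_zero, fun σ => by simp, fun v _ => by simp⟩

theorem ray_mul {B : Finset (Pl F)} {N : ℕ} {x y : 𝓞 F} (hx : Ray B N x) (hy : Ray B N y) :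
    Ray B N (x * y) := by
  refine ⟨mul_ne_zero hx.1 hy.1, fun σ => ?_, fun v hv => ?_⟩
  · have h : ((x * y : 𝓞 F) : F) = (x : F) * (y : F) := by simp
    rw [h, map_mul]
    exact mul_pos (hx.2.1 σ) (hy.2.1 σ)
  · have h : x * y - 1 = x * (y - 1) + (x - 1) := by ring
    rw [h]
    exact Ideal.add_mem _ (Ideal.mul_mem_left _ _ (hy.2.2 v hv)) (hx.2.2 v hv)

theorem ray_notMem {B : Finset (Pl F)} {N : ℕ} (hN : 0 < N) {x : 𝓞 F} (hx : Ray B N x) :
    ∀ v ∈ B, x ∉ v.asIdeal := by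
  intro v hv hxv
  have h1 : x - 1 ∈ v.asIdeal := Ideal.pow_le_self hN.ne' (hx.2.2 v hv)
  have h2 : (1 : 𝓞 F) ∈ v.asIdeal := by
    have := Ideal.sub_mem _ hxv h1
    simpa using this
  exact v.isPrime.ne_top ((Ideal.eq_top_iff_one _).mpr h2)

theorem cop_top (B : Finset (Pl F)) : Cop B (⊤ : Ideal (𝓞 F)) := by
  refine ⟨top_ne_bot, fun v _ h => v.isPrime.ne_top (top_le_iff.mp h)⟩

theorem cop_mul {B : Finset (Pl F)} {I J : Ideal (𝓞 F)} (hI : Cop B I) (hJ : Cop B J) :
    Cop B (I * J) := by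
  refine ⟨mul_ne_zero hI.1 hJ.1, fun v hv h => ?_⟩
  rcases (v.isPrime.mul_le).mp h with h | h
  · exact hI.2 v hv h
  · exact hJ.2 v hv h

theorem cop_pow {B : Finset (Pl F)} {I : Ideal (𝓞 F)} (hI : Cop B I) (n : ℕ) : Cop B (I ^ n) := by
  induction n with
  | zero => simpa using cop_top B
  | succ n ih => rw [pow_succ]; exact cop_mul ih hI

theorem cop_span {B : Finset (Pl F)} {x : 𝓞 F} :
    Cop B (Ideal.span {x}) ↔ x ≠ 0 ∧ ∀ v ∈ B, x ∉ v.asIdeal := by
  unfold Cop
  simp only [ne_eq, Ideal.span_singleton_eq_bot, Ideal.span_singleton_le_iff_mem]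

theorem cop_of_mul {B : Finset (Pl F)} {I J : Ideal (𝓞 F)} (h : Cop B (I * J)) : Cop B I := by
  refine ⟨fun h0 => h.1 (by rw [h0, Ideal.bot_mul]), fun v hv h1 => h.2 v hv ?_⟩
  exact le_trans Ideal.mul_le_left h1

/-- the conductor -/
noncomputable def mm (B : Finset (Pl F)) (N : ℕ) : Ideal (𝓞 F) := ∏ v ∈ B, v.asIdeal ^ N

theorem mm_ne (B : Finset (Pl F)) (N : ℕ) : mm B N ≠ ⊥ := by
  unfold mm
  exact Finset.prod_ne_zero_iff.mpr fun v _ => pow_ne_zero _ v.ne_bot

theorem mm_le {B : Finset (Pl F)} {N : ℕ} {x : 𝓞 F} (h : x ∈ mm B N) : ∀ v ∈ B, x ∈ v.asIdeal ^ N := by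
  intro v hv
  have : mm B N ≤ v.asIdeal ^ N := by
    unfold mm
    rw [← Ideal.dvd_iff_le]
    exact Finset.dvd_prod_of_mem _ hv
  exact this h

instance mm_fin (B : Finset (Pl F)) (N : ℕ) : Finite (𝓞 F ⧸ mm B N) :=
  Ideal.finiteQuotientOfFreeOfNeBot _ (mm_ne B N)

theorem unit_mm {B : Finset (Pl F)} (N : ℕ) {x : 𝓞 F} (hx : ∀ v ∈ B, x ∉ v.asIdeal) :
    IsUnit (Ideal.Quotient.mk (mm B N) x) := by
  have h1 : IsCoprime (Ideal.span {x}) (mm B N) := by
    unfold mm
    refine IsCoprime.prod_right fun v hv => IsCoprime.pow_right ?_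
    rw [Ideal.isCoprime_iff_sup_eq]
    have hM : v.asIdeal.IsMaximal := v.isMaximal
    refine hM.1.2 _ ?_
    refine lt_of_le_of_ne le_sup_right ?_
    intro h
    apply hx v hv
    rw [h]
    exact Ideal.mem_sup_left (Ideal.mem_span_singleton_self x)
  rw [Ideal.isCoprime_iff_exists] at h1
  obtain ⟨a, ha, b, hb, hab⟩ := h1
  obtain ⟨c, rfl⟩ := Ideal.mem_span_singleton'.mp ha
  refine IsUnit.of_mul_eq_one (Ideal.Quotient.mk _ c) ?_
  rw [← map_mul, ← map_one (Ideal.Quotient.mk (mm B N)), Ideal.Quotient.eq]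
  have : x * c - 1 = - b := by linear_combination hab
  rw [this]
  exact neg_mem hb

/-- an exponent that kills units and signs -/
noncomputable def kk (B : Finset (Pl F)) (N : ℕ) : ℕ := 2 * Nat.card (𝓞 F ⧸ mm B N)ˣ

theorem kk_pos (B : Finset (Pl F)) (N : ℕ) : 0 < kk B N := by
  unfold kk
  have : 0 < Nat.card (𝓞 F ⧸ mm B N)ˣ := Nat.card_pos
  omega

theorem kk_one {B : Finset (Pl F)} (N : ℕ) {x : 𝓞 F} (hx : ∀ v ∈ B, x ∉ v.asIdeal) :
    x ^ kk B N - 1 ∈ mm B N := by
  obtain ⟨u, hu⟩ := unit_mm N hx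
  rw [← Ideal.Quotient.eq, map_pow, ← hu, map_one]
  unfold kk
  rw [mul_comm, pow_mul, ← Units.val_pow_eq_pow_val, pow_card_eq_one', Units.val_one, one_pow]

theorem ray_kk {B : Finset (Pl F)} (N : ℕ) {x : 𝓞 F} (h0 : x ≠ 0) (hx : ∀ v ∈ B, x ∉ v.asIdeal) :
    Ray B N (x ^ kk B N) := by
  refine ⟨pow_ne_zero _ h0, fun σ => ?_, mm_le (kk_one N hx)⟩
  have h : ((x ^ kk B N : 𝓞 F) : F) = (x : F) ^ kk B N := by simp
  rw [h, map_pow]
  have hne : σ (x : F) ≠ 0 := by
    rw [map_ne_zero]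
    simpa using h0
  unfold kk
  rw [pow_mul]
  positivity

/-! ### The monoid of ideals prime to `B` -/

/-- ideals prime to `B` -/
def SM (B : Finset (Pl F)) : Submonoid (Ideal (𝓞 F)) where
  carrier := {I | Cop B I}
  mul_mem' := fun hI hJ => cop_mul hI hJ
  one_mem' := by
    show Cop B 1
    rw [Ideal.one_eq_top]; exact cop_top B

/-- the relation -/
def con (B : Finset (Pl F)) (N : ℕ) : Con (SM B) where
  r I J := ∃ x y : 𝓞 F, Ray B N x ∧ Ray B N y ∧
    Ideal.span {x} * (I : Ideal (𝓞 F)) = Ideal.span {y} * (J : Ideal (𝓞 F))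
  iseqv := by
    refine ⟨fun I => ⟨1, 1, ray_one B N, ray_one B N, rfl⟩, ?_, ?_⟩
    · rintro I J ⟨x, y, hx, hy, h⟩
      exact ⟨y, x, hy, hx, h.symm⟩
    · rintro I J K ⟨x, y, hx, hy, h⟩ ⟨x', y', hx', hy', h'⟩
      refine ⟨x * x', y * y', ray_mul hx hx', ray_mul hy hy', ?_⟩
      rw [← Ideal.span_singleton_mul_span_singleton, ← Ideal.span_singleton_mul_span_singleton]
      calc Ideal.span {x} * Ideal.span {x'} * (I : Ideal (𝓞 F))
          = Ideal.span {x'} * (Ideal.span {x} * (I : Ideal (𝓞 F))) := by ring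
        _ = Ideal.span {y} * (Ideal.span {x'} * (J : Ideal (𝓞 F))) := by rw [h]; ring
        _ = Ideal.span {y} * Ideal.span {y'} * (K : Ideal (𝓞 F)) := by rw [h']; ring
  mul' := by
    rintro I J K L ⟨x, y, hx, hy, h⟩ ⟨x', y', hx', hy', h'⟩
    refine ⟨x * x', y * y', ray_mul hx hx', ray_mul hy hy', ?_⟩
    rw [← Ideal.span_singleton_mul_span_singleton, ← Ideal.span_singleton_mul_span_singleton]
    push_cast
    calc Ideal.span {x} * Ideal.span {x'} * ((I : Ideal (𝓞 F)) * (K : Ideal (𝓞 F)))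
        = (Ideal.span {x} * (I : Ideal (𝓞 F))) * (Ideal.span {x'} * (K : Ideal (𝓞 F))) := by ring
      _ = (Ideal.span {y} * (J : Ideal (𝓞 F))) * (Ideal.span {y'} * (L : Ideal (𝓞 F))) := by
          rw [h, h']
      _ = Ideal.span {y} * Ideal.span {y'} * ((J : Ideal (𝓞 F)) * (L : Ideal (𝓞 F))) := by ring

theorem con_def {B : Finset (Pl F)} {N : ℕ} {I J : SM B} : con B N I J ↔ ∃ x y : 𝓞 F,
    Ray B N x ∧ Ray B N y ∧
    Ideal.span {x} * (I : Ideal (𝓞 F)) = Ideal.span {y} * (J : Ideal (𝓞 F)) := Iff.rfl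

/-! ### Finiteness -/

omit [NumberField F] in
theorem nzd {I : Ideal (𝓞 F)} (h : I ≠ ⊥) : I ∈ (Ideal (𝓞 F))⁰ :=
  mem_nonZeroDivisors_iff_ne_zero.mpr h

/-- the ideal class -/
noncomputable def ic {B : Finset (Pl F)} (I : SM B) : ClassGroup (𝓞 F) :=
  ClassGroup.mk0 ⟨(I : Ideal (𝓞 F)), nzd I.2.1⟩

theorem ic_mul {B : Finset (Pl F)} (I J : SM B) : ic (I * J) = ic I * ic J := by
  unfold ic
  rw [← map_mul]
  rfl

theorem ic_pow {B : Finset (Pl F)} (I : SM B) (n : ℕ) : ic (I ^ n) = ic I ^ n := by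
  induction n with
  | zero =>
    rw [pow_zero, pow_zero]
    unfold ic
    rw [ClassGroup.mk0_eq_one_iff]
    refine ⟨⟨1, ?_⟩⟩
    simp [Ideal.one_eq_top]
  | succ n ih => rw [pow_succ, pow_succ, ic_mul, ih]

/-- a power of every ideal is principal with a ray generator -/
theorem pow_ray {B : Finset (Pl F)} (N : ℕ) (I : SM B) : ∃ (n : ℕ) (x : 𝓞 F), 0 < n ∧ Ray B N x ∧
    ((I : Ideal (𝓞 F))) ^ n = Ideal.span {x} := by
  have h1 : ic (I ^ (Nat.card (ClassGroup (𝓞 F)))) = 1 := by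
    rw [ic_pow, pow_card_eq_one']
  unfold ic at h1
  rw [ClassGroup.mk0_eq_one_iff] at h1
  obtain ⟨z, hz⟩ := h1
  have hz' : (I : Ideal (𝓞 F)) ^ (Nat.card (ClassGroup (𝓞 F))) = Ideal.span {z} := by
    rw [← Ideal.submodule_span_eq, ← hz]; push_cast; rfl
  have hc : Cop B (Ideal.span {z}) := by rw [← hz']; exact cop_pow I.2 _
  rw [cop_span] at hc
  refine ⟨Nat.card (ClassGroup (𝓞 F)) * kk B N, z ^ kk B N,
    Nat.mul_pos Nat.card_pos (kk_pos B N), ray_kk N hc.1 hc.2, ?_⟩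
  rw [pow_mul, hz', Ideal.span_singleton_pow]

/-- comparison with another ideal of the same class -/
theorem comp {B : Finset (Pl F)} (N : ℕ) (I J : SM B) (h : ic I = ic J) :
    ∃ x y : 𝓞 F, Ray B N x ∧ y ≠ 0 ∧
      Ideal.span {x} * (I : Ideal (𝓞 F)) = Ideal.span {y} * (J : Ideal (𝓞 F)) := by
  obtain ⟨n, x, hn, hx, hJ⟩ := pow_ray N J
  have h1 : ic (I * J ^ (n - 1)) = 1 := by
    rw [ic_mul, ic_pow, h, ← pow_succ', Nat.sub_add_cancel hn, ← ic_pow]
    unfold ic
    rw [ClassGroup.mk0_eq_one_iff]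
    refine ⟨⟨x, ?_⟩⟩
    push_cast
    rw [hJ]
  unfold ic at h1
  rw [ClassGroup.mk0_eq_one_iff] at h1
  obtain ⟨z, hz⟩ := h1
  have hz' : (I : Ideal (𝓞 F)) * (J : Ideal (𝓞 F)) ^ (n - 1) = Ideal.span {z} := by
    rw [← Ideal.submodule_span_eq, ← hz]; push_cast; rfl
  refine ⟨x, z, hx, ?_, ?_⟩
  · intro h0
    rw [h0] at hz'
    have : (I : Ideal (𝓞 F)) * (J : Ideal (𝓞 F)) ^ (n - 1) ≠ 0 :=
      mul_ne_zero I.2.1 (pow_ne_zero _ J.2.1)
    apply this
    rw [hz']; simp
  · rw [← hJ, ← hz']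
    calc (J : Ideal (𝓞 F)) ^ n * (I : Ideal (𝓞 F))
        = (J : Ideal (𝓞 F)) ^ (n - 1 + 1) * (I : Ideal (𝓞 F)) := by rw [Nat.sub_add_cancel hn]
      _ = _ := by rw [pow_succ]; ring

/-- the representative of an ideal class -/
noncomputable def rep (B : Finset (Pl F)) (C : ClassGroup (𝓞 F)) : SM B :=
  if h : ∃ I : SM B, ic I = C then h.choose else 1

theorem ic_rep {B : Finset (Pl F)} (I : SM B) : ic (rep B (ic I)) = ic I := by
  have h : ∃ J : SM B, ic J = ic I := ⟨I, rfl⟩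
  unfold rep
  rw [dif_pos h]
  exact h.choose_spec

theorem comp2 {B : Finset (Pl F)} (N : ℕ) (I : SM B) :
    ∃ x y : 𝓞 F, Ray B N x ∧ y ≠ 0 ∧
      Ideal.span {x} * (I : Ideal (𝓞 F)) = Ideal.span {y} * (rep B (ic I) : Ideal (𝓞 F)) :=
  comp N I _ (ic_rep I).symm

/-- the ray element for the comparison -/
noncomputable def xx {B : Finset (Pl F)} (N : ℕ) (I : SM B) : 𝓞 F := (comp2 N I).choose

/-- the other element for the comparison -/
noncomputable def yy {B : Finset (Pl F)} (N : ℕ) (I : SM B) : 𝓞 F := (comp2 N I).choose_spec.choose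

theorem xy_spec {B : Finset (Pl F)} (N : ℕ) (I : SM B) : Ray B N (xx N I) ∧ yy N I ≠ 0 ∧
      Ideal.span {xx N I} * (I : Ideal (𝓞 F)) =
        Ideal.span {yy N I} * (rep B (ic I) : Ideal (𝓞 F)) :=
  (comp2 N I).choose_spec.choose_spec

/-- the invariants of an ideal -/
noncomputable def dat {B : Finset (Pl F)} (N : ℕ) (I : SM B) :
    ClassGroup (𝓞 F) × (𝓞 F ⧸ mm B N) × Set (F →+* ℝ) :=
  (ic I, Ideal.Quotient.mk _ (yy N I), {σ | 0 < σ ((yy N I : 𝓞 F) : F)})

theorem con_of_dat {B : Finset (Pl F)} {N : ℕ} (hN : 0 < N) (I I' : SM B) (h : dat N I = dat N I') :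
    con B N I I' := by
  unfold dat at h
  rw [Prod.mk.injEq, Prod.mk.injEq] at h
  obtain ⟨h1, h2, h3⟩ := h
  obtain ⟨hx, hy0, he⟩ := xy_spec N I
  obtain ⟨hx', hy0', he'⟩ := xy_spec N I'
  generalize xx N I = x at *
  generalize yy N I = y at *
  generalize xx N I' = x' at *
  generalize yy N I' = y' at *
  rw [← h1] at he'
  have hyc' : ∀ v ∈ B, y' ∉ v.asIdeal := by
    have hc : Cop B (Ideal.span {y'} * (rep B (ic I) : Ideal (𝓞 F))) := by
      rw [← he']
      exact cop_mul (cop_span.mpr ⟨hx'.1, ray_notMem hN hx'⟩) I'.2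
    exact (cop_span.mp (cop_of_mul hc)).2
  rw [Ideal.Quotient.eq] at h2
  have hk := kk_pos B N
  have hwy' : y' ^ (kk B N - 1) * y' = y' ^ kk B N := by
    rw [← pow_succ, Nat.sub_add_cancel hk]
  have hr1 : Ray B N (y' ^ (kk B N - 1) * y') := by
    rw [hwy']; exact ray_kk N hy0' hyc'
  have hr2 : Ray B N (y' ^ (kk B N - 1) * y) := by
    refine ⟨mul_ne_zero (pow_ne_zero _ hy0') hy0, fun σ => ?_, fun v hv => ?_⟩
    · have hp := hr1.2.1 σ
      have e1 : ((y' ^ (kk B N - 1) * y' : 𝓞 F) : F) = (y' : F) ^ (kk B N - 1) * (y' : F) := by simp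
      have e2 : ((y' ^ (kk B N - 1) * y : 𝓞 F) : F) = (y' : F) ^ (kk B N - 1) * (y : F) := by simp
      rw [e1, map_mul, map_pow] at hp
      rw [e2, map_mul, map_pow]
      have hiff : 0 < σ (y : F) ↔ 0 < σ (y' : F) := by
        have := Set.ext_iff.mp h3 σ
        simpa using this
      have hne : σ (y : F) ≠ 0 := by
        rw [map_ne_zero]; simpa using hy0
      rcases lt_trichotomy (σ (y' : F)) 0 with hs | hs | hs
      · have hs2 : σ (y : F) < 0 := by
          rcases lt_or_gt_of_ne hne with h | h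
          · exact h
          · exact absurd (hiff.mp h) (not_lt.mpr hs.le)
        have h5 : σ (y' : F) ^ (kk B N - 1) < 0 := by
          by_contra h6
          push Not at h6
          have := mul_nonpos_of_nonneg_of_nonpos h6 hs.le
          linarith
        exact mul_pos_of_neg_of_neg h5 hs2
      · rw [hs, mul_zero] at hp
        exact absurd hp (lt_irrefl _)
      · have hs2 := hiff.mpr hs
        positivity
    · have e : y' ^ (kk B N - 1) * y - 1 =
        y' ^ (kk B N - 1) * (y - y') + (y' ^ (kk B N - 1) * y' - 1) := by ring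
      rw [e]
      exact Ideal.add_mem _ (Ideal.mul_mem_left _ _ (mm_le h2 v hv)) (hr1.2.2 v hv)
  rw [con_def]
  refine ⟨x * (y' ^ (kk B N - 1) * y'), x' * (y' ^ (kk B N - 1) * y), ray_mul hx hr1,
    ray_mul hx' hr2, ?_⟩
  rw [← Ideal.span_singleton_mul_span_singleton, ← Ideal.span_singleton_mul_span_singleton,
    ← Ideal.span_singleton_mul_span_singleton, ← Ideal.span_singleton_mul_span_singleton]
  calc Ideal.span {x} * (Ideal.span {y' ^ (kk B N - 1)} * Ideal.span {y'}) * (I : Ideal (𝓞 F))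
      = Ideal.span {y' ^ (kk B N - 1)} * Ideal.span {y'} *
          (Ideal.span {x} * (I : Ideal (𝓞 F))) := by ring
    _ = Ideal.span {y' ^ (kk B N - 1)} * Ideal.span {y} *
          (Ideal.span {y'} * (rep B (ic I) : Ideal (𝓞 F))) := by rw [he]; ring
    _ = _ := by rw [← he']; ring

instance fin_emb : Finite (F →+* ℝ) := by
  refine Finite.of_injective (fun σ : F →+* ℝ => (Complex.ofRealHom.comp σ : F →+* ℂ)) ?_
  intro σ τ h
  ext x
  have := RingHom.congr_fun h x
  simpa using this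

theorem fin_quot {B : Finset (Pl F)} {N : ℕ} (hN : 0 < N) : Finite (con B N).Quotient := by
  refine Finite.of_injective (fun a : (con B N).Quotient => dat N (Quotient.out a)) ?_
  intro a b h
  have := con_of_dat hN _ _ h
  rw [← Quotient.out_eq a, ← Quotient.out_eq b]
  exact Quotient.sound this

/-- the ray class group -/
@[reducible] noncomputable def grp (B : Finset (Pl F)) (N : ℕ) : CommGroup (con B N).Quotient :=
  { (inferInstance : CommMonoid (con B N).Quotient) with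
    inv := fun a => if h : ∃ b : (con B N).Quotient, b * a = 1 then h.choose else 1
    inv_mul_cancel := by
      intro a
      have h : ∃ b : (con B N).Quotient, b * a = 1 := by
        induction a using Con.induction_on with
        | H I =>
          obtain ⟨n, x, hn, hx, hI⟩ := pow_ray N I
          refine ⟨((I ^ (n - 1) : SM B) : (con B N).Quotient), ?_⟩
          rw [← Con.coe_mul, ← pow_succ, Nat.sub_add_cancel hn, ← Con.coe_one, Con.eq, con_def]
          refine ⟨1, x, ray_one B N, hx, ?_⟩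
          push_cast
          rw [hI]
          simp
      show (if h : ∃ b : (con B N).Quotient, b * a = 1 then h.choose else 1) * a = 1
      rw [dif_pos h]
      exact h.choose_spec }

theorem st_RCG : ST_RCG := by
  intro F _ _ B N hN
  refine ⟨(con B N).Quotient, grp B N, fin_quot hN,
    fun I => if h : Cop B I then (((⟨I, h⟩ : SM B)) : (con B N).Quotient) else
      (((1 : SM B)) : (con B N).Quotient), ?_⟩
  have key : ∀ (I : Ideal (𝓞 F)) (h : Cop B I), (if h : Cop B I then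
      (((⟨I, h⟩ : SM B)) : (con B N).Quotient) else (((1 : SM B)) : (con B N).Quotient)) =
      (((⟨I, h⟩ : SM B)) : (con B N).Quotient) := fun I h => dif_pos h
  let _ := grp B N
  refine IsRCG.mk ?_ ?_ ?_ ?_
  · intro I J hI hJ
    rw [key _ (cop_mul hI hJ), key _ hI, key _ hJ]
    rfl
  · intro x hx
    rw [key _ (cop_span.mpr ⟨hx.1, ray_notMem hN hx⟩)]
    show _ = (((1 : SM B)) : (con B N).Quotient)
    rw [Con.eq, con_def]
    refine ⟨1, x, ray_one B N, hx, ?_⟩
    push_cast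
    simp
  · intro I J hI hJ h
    rw [key _ hI, key _ hJ, Con.eq, con_def] at h
    exact h
  · intro g
    induction g using Con.induction_on with
    | H I => exact ⟨I, I.2, key _ I.2⟩

end Pool.Agent.Helper28.RC
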