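import Pool.Agent.Helper57.REC.Stmts3
import Pool.Agent.Helper28.REC.RCG

set_option autoImplicit false

/-!
Project REC, module THE: the characters of the quotient by the relations are ray characters.
-/

open scoped Classical
open NumberField

namespace Pool.Agent.Helper28.TH

open Pool.Agent.Helper13.ZL (Pl q HasMean)
open Pool.Agent.Helper28.RC
open REC

variable {F : Type} [Field F] [NumberField F]

/-- the order of an ideal at a place -/
noncomputable def oI (v : Pl F) (I : Ideal (𝓞 F)) : ℕ :=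
  (Associates.mk v.asIdeal).count (Associates.mk I).factors

theorem oI_mul (v : Pl F) {I J : Ideal (𝓞 F)} (hI : I ≠ ⊥) (hJ : J ≠ ⊥) :
    oI v (I * J) = oI v I + oI v J := by
  unfold oI
  rw [← Associates.mk_mul_mk, Associates.count_mul (Associates.mk_ne_zero.mpr hI)
    (Associates.mk_ne_zero.mpr hJ) v.associates_irreducible]

theorem oI_le {I : Ideal (𝓞 F)} (hI : I ≠ ⊥) (v : Pl F) (k : ℕ) :
    I ≤ v.asIdeal ^ k ↔ k ≤ oI v I := by
  unfold oI
  rw [← Associates.prime_pow_dvd_iff_le (Associates.mk_ne_zero.mpr hI) v.associates_irreducible,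
    ← Associates.mk_pow, Associates.mk_le_mk_iff_dvd, Ideal.dvd_iff_le]

theorem oI_top (v : Pl F) : oI v (⊤ : Ideal (𝓞 F)) = 0 := by
  by_contra h
  have h1 := (oI_le (top_ne_bot : (⊤ : Ideal (𝓞 F)) ≠ ⊥) v 1).mpr (by omega)
  rw [pow_one] at h1
  exact v.isPrime.ne_top (top_le_iff.mp h1)

theorem oI_self (v w : Pl F) : oI v w.asIdeal = if v = w then 1 else 0 := by
  split_ifs with h
  · subst h
    apply le_antisymm
    · by_contra h1
      have h2 := (oI_le v.ne_bot v 2).mpr (by omega)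
      have h3 : v.asIdeal ^ 2 = v.asIdeal := le_antisymm (Ideal.pow_le_self two_ne_zero) h2
      have h4 : v.asIdeal * v.asIdeal = v.asIdeal * 1 := by rw [← pow_two, h3, mul_one]
      have h5 := mul_left_cancel₀ v.ne_bot h4
      exact v.isPrime.ne_top (by rw [h5, Ideal.one_eq_top])
    · refine (oI_le v.ne_bot v 1).mp (by rw [pow_one])
  · by_contra h1
    have h2 := (oI_le w.ne_bot v 1).mpr (by omega)
    rw [pow_one] at h2
    have := w.isMaximal.eq_of_le v.isPrime.ne_top h2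
    exact h (by ext1; exact this.symm)

theorem oI_pow (v : Pl F) {I : Ideal (𝓞 F)} (hI : I ≠ ⊥) (n : ℕ) : oI v (I ^ n) = n * oI v I := by
  induction n with
  | zero => rw [pow_zero, Ideal.one_eq_top, oI_top, zero_mul]
  | succ n ih => rw [pow_succ, oI_mul v (pow_ne_zero _ hI) hI, ih]; ring

theorem cop_iff_oI {B : Finset (Pl F)} {I : Ideal (𝓞 F)} (hI : I ≠ ⊥) :
    Cop B I ↔ ∀ v ∈ B, oI v I = 0 := by
  unfold Cop
  constructor
  · intro h v hv
    by_contra h1
    have h2 := (oI_le hI v 1).mpr (by omega)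
    rw [pow_one] at h2
    exact h.2 v hv h2
  · intro h
    refine ⟨hI, fun v hv h1 => ?_⟩
    have h2 := (oI_le hI v 1).mp (by rw [pow_one]; exact h1)
    have := h v hv
    omega

theorem ordv_mul (v : Pl F) (x y : Fˣ) : ordv v (x * y) = ordv v x + ordv v y := by
  unfold ordv
  rw [Units.val_mul, map_mul, WithZero.log_mul]
  · ring
  · exact (map_ne_zero _).mpr x.ne_zero
  · exact (map_ne_zero _).mpr y.ne_zero

theorem ordv_one (v : Pl F) : ordv v (1 : Fˣ) = 0 := by
  unfold ordv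
  simp

theorem ordv_inv (v : Pl F) (x : Fˣ) : ordv v x⁻¹ = - ordv v x := by
  have h := ordv_mul v x x⁻¹
  rw [mul_inv_cancel, ordv_one] at h
  linarith

/-- an integer as a unit of the field -/
noncomputable def iu (x : 𝓞 F) (hx : x ≠ 0) : Fˣ := Units.mk0 (x : F) (by simpa using hx)

theorem ordv_int (v : Pl F) (x : 𝓞 F) (hx : x ≠ 0) : ordv v (iu x hx) = oI v (Ideal.span {x}) := by
  unfold ordv iu oI
  rw [Units.val_mk0, IsDedekindDomain.HeightOneSpectrum.valuation_of_algebraMap,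
    v.intValuation_if_neg hx, WithZero.log_exp, neg_neg]

theorem val_exp (v : Pl F) (x : Fˣ) : v.valuation F (x : F) = WithZero.exp (-(ordv v x)) := by
  unfold ordv
  rw [neg_neg, WithZero.exp_log]
  exact (map_ne_zero _).mpr x.ne_zero

theorem val_one_iff (v : Pl F) (x : Fˣ) : v.valuation F (x : F) = 1 ↔ ordv v x = 0 := by
  rw [val_exp, WithZero.exp_eq_one, neg_eq_zero]

/-- the order of `x` and `I` agree outside `T` -/
def Good (T : Finset (Pl F)) (I : Ideal (𝓞 F)) (x : Fˣ) : Prop :=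
  ∀ w : Pl F, w ∉ T → ordv w x = oI w I

theorem good_mul {T : Finset (Pl F)} {I J : Ideal (𝓞 F)} {x y : Fˣ} (hI : I ≠ ⊥) (hJ : J ≠ ⊥)
    (hx : Good T I x) (hy : Good T J y) : Good T (I * J) (x * y) := by
  intro w hw
  rw [ordv_mul, oI_mul w hI hJ, hx w hw, hy w hw]
  push_cast
  rfl

theorem good_int {T : Finset (Pl F)} {x : 𝓞 F} (hx : x ≠ 0) : Good T (Ideal.span {x}) (iu x hx) :=
  fun w _ => ordv_int w x hx

omit [NumberField F] in
theorem span_ne {x : 𝓞 F} (hx : x ≠ 0) : Ideal.span {x} ≠ ⊥ := by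
  rw [ne_eq, Ideal.span_singleton_eq_bot]; exact hx

theorem exists_good {T : Finset (Pl F)} (hC : ClGen F T) {I : Ideal (𝓞 F)} (hI : I ≠ ⊥) :
    ∃ x, Good T I x := by
  obtain ⟨x, hx, h⟩ := hC I hI
  refine ⟨iu x hx, fun w hw => ?_⟩
  rw [ordv_int]
  have h1 : ∀ k : ℕ, k ≤ oI w (Ideal.span {x}) ↔ k ≤ oI w I := by
    intro k
    rw [← oI_le (span_ne hx), ← oI_le hI, Ideal.span_singleton_le_iff_mem]
    exact h w hw k
  have h2 := (h1 _).mp le_rfl
  have h3 := (h1 _).mpr le_rfl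
  exact_mod_cast le_antisymm h2 h3

/-! ### The value at an ideal -/

section

variable {T : Finset (Pl F)} (K : (Fˣ × (T → Multiplicative ℤ)) →* ℂˣ)

/-- the value -/
noncomputable def psi (I : Ideal (𝓞 F)) (x : Fˣ) : ℂˣ :=
  K (x⁻¹, fun t => Multiplicative.ofAdd ((oI (t : Pl F) I : ℤ) - ordv (t : Pl F) x))

theorem psi_mul {I J : Ideal (𝓞 F)} (hI : I ≠ ⊥) (hJ : J ≠ ⊥) (x y : Fˣ) :
    psi K (I * J) (x * y) = psi K I x * psi K J y := by
  unfold psi
  rw [← map_mul, Prod.mk_mul_mk, mul_inv]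
  congr 2
  funext t
  rw [Pi.mul_apply, ← ofAdd_add, oI_mul _ hI hJ, ordv_mul]
  push_cast
  congr 1
  ring

theorem psi_indep (hK : ∀ x ∈ SU F T, K (x, fun t : T => Multiplicative.ofAdd (ordv (t : Pl F) x)) = 1)
    {I : Ideal (𝓞 F)} {x y : Fˣ} (hx : Good T I x) (hy : Good T I y) : psi K I x = psi K I y := by
  have hu : x * y⁻¹ ∈ SU F T := by
    intro v hv
    rw [val_one_iff, ordv_mul, ordv_inv, hx v hv, hy v hv]
    ring
  have h := hK _ hu
  have h2 : psi K I y = psi K I x * K (x * y⁻¹, fun t : T =>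
      Multiplicative.ofAdd (ordv (t : Pl F) (x * y⁻¹))) := by
    unfold psi
    rw [← map_mul, Prod.mk_mul_mk]
    congr 2
    · group
    · funext t
      rw [Pi.mul_apply, ← ofAdd_add, ordv_mul, ordv_inv]
      congr 1
      ring
  rw [h2, h, mul_one]

/-- the function on the places -/
noncomputable def ff (B : Finset (Pl F)) (v : Pl F) : ℂˣ :=
  if h : v ∉ B ∧ ∃ x, Good T v.asIdeal x then psi K v.asIdeal h.2.choose else 1

theorem ff_B {B : Finset (Pl F)} {v : Pl F} (hv : v ∈ B) : ff K B v = 1 :=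
  dif_neg (fun h => h.1 hv)

theorem ff_eq
    (hK : ∀ x ∈ SU F T, K (x, fun t : T => Multiplicative.ofAdd (ordv (t : Pl F) x)) = 1)
    {B : Finset (Pl F)} {v : Pl F} (hv : v ∉ B) {x : Fˣ} (hx : Good T v.asIdeal x) :
    ff K B v = psi K v.asIdeal x := by
  have h : v ∉ B ∧ ∃ x, Good T v.asIdeal x := ⟨hv, x, hx⟩
  unfold ff
  rw [dif_pos h]
  exact psi_indep K hK h.2.choose_spec hx

theorem ev_ff (EV : ST_EV) (hC : ClGen F T)
    (hK : ∀ x ∈ SU F T, K (x, fun t : T => Multiplicative.ofAdd (ordv (t : Pl F) x)) = 1)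
    {B : Finset (Pl F)} (I : Ideal (𝓞 F)) (hI : Cop B I) (x : Fˣ) (hx : Good T I x) :
    ev (ff K B) I = psi K I x := by
  obtain ⟨e1, e2, e3, -⟩ := EV F ℂˣ
  revert x
  induction I using UniqueFactorizationMonoid.induction_on_prime with
  | h₁ => exact absurd rfl hI.1
  | h₂ I hu =>
    intro x hx
    rw [Ideal.isUnit_iff] at hu
    subst hu
    rw [e1]
    have h1 : Good T (⊤ : Ideal (𝓞 F)) (1 : Fˣ) := by
      intro w _
      rw [ordv_one, oI_top]; rfl
    rw [psi_indep K hK hx h1]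
    unfold psi
    have : ((1 : Fˣ)⁻¹, fun t : T => Multiplicative.ofAdd
        ((oI (t : Pl F) (⊤ : Ideal (𝓞 F)) : ℤ) - ordv (t : Pl F) 1)) = 1 := by
      rw [inv_one]
      refine Prod.ext rfl ?_
      funext t
      simp [oI_top, ordv_one]
    rw [this, map_one]
  | h₃ I P hI0 hP ih =>
    intro x hx
    have hP0 : P ≠ ⊥ := hP.ne_zero
    set v : Pl F := ⟨P, Ideal.isPrime_of_prime hP, hP0⟩ with hvdef
    have hPv : P = v.asIdeal := rfl
    have hcI : Cop B I := cop_of_mul (by rwa [mul_comm] at hI)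
    have hcP : Cop B P := cop_of_mul hI
    have hvB : v ∉ B := fun h => hcP.2 v h le_rfl
    obtain ⟨y, hy⟩ := exists_good hC v.ne_bot
    obtain ⟨z, hz⟩ := exists_good hC hI0
    rw [e2 _ _ _ hP0 hI0, ih hcI z hz, hPv, e3, ff_eq K hK hvB hy,
      ← psi_mul K v.ne_bot hI0]
    exact psi_indep K hK (good_mul v.ne_bot hI0 hy hz) hx

theorem ev_pow (EV : ST_EV) (f : Pl F → ℂˣ) (v : Pl F) (n : ℕ) : ev f (v.asIdeal ^ n) = f v ^ n := by
  obtain ⟨e1, e2, e3, -⟩ := EV F ℂˣ
  induction n with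
  | zero => rw [pow_zero, pow_zero, Ideal.one_eq_top, e1]
  | succ n ih => rw [pow_succ, pow_succ, e2 _ _ _ (pow_ne_zero _ v.ne_bot) v.ne_bot, ih, e3]

end

theorem oI_prod (S : Finset (Pl F)) (n : Pl F → ℕ) (w : Pl F) :
    oI w (∏ v ∈ S, v.asIdeal ^ n v) = if w ∈ S then n w else 0 := by
  induction S using Finset.induction_on with
  | empty => simp [Ideal.one_eq_top, oI_top]
  | insert v S hv ih =>
    rw [Finset.prod_insert hv, oI_mul w (pow_ne_zero _ v.ne_bot)
      (Finset.prod_ne_zero_iff.mpr fun u _ => pow_ne_zero _ u.ne_bot), ih,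
      oI_pow w v.ne_bot, oI_self]
    by_cases h1 : w = v
    · subst h1
      simp [hv]
    · simp [h1]

theorem prod_ne (S : Finset (Pl F)) (n : Pl F → ℕ) : (∏ v ∈ S, v.asIdeal ^ n v) ≠ ⊥ :=
  Finset.prod_ne_zero_iff.mpr fun u _ => pow_ne_zero _ u.ne_bot

/-! ### Norms -/

section

variable {L : Type} [Field L] [NumberField L] [Algebra F L] [IsGalois F L]

theorem norm_pow (POV : ST_POV) (UNV : ST_UNV) (EV : ST_EV) {B T : Finset (Pl F)}
    {TL : Finset (Pl L)} (hU : ∀ v : Pl F, v ∉ B → UnrL L v) (hTB : Disjoint T B)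
    (hTL : IsTL T TL) (hCF : ClGen F T) (hCL : ClGen L TL) {N : ℕ}
    {R : Subgroup (Fˣ × (T → Multiplicative ℤ))} (hR : IsRel F L B T N R)
    (K : (Fˣ × (T → Multiplicative ℤ)) →* ℂˣ) (hK : ∀ w ∈ R, K w = 1)
    (hK' : ∀ x ∈ SU F T, K (x, fun t : T => Multiplicative.ofAdd (ordv (t : Pl F) x)) = 1)
    (v : Pl F) (hv : v ∉ B) : ff K B v ^ nv L v = 1 := by
  obtain ⟨p1, p2, -, -, -, -, -, p8⟩ := POV F L
  obtain ⟨P, hP⟩ := (p2 v).2.1
  obtain ⟨y, hy⟩ := exists_good hCL P.ne_bot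
  have huniq : ∀ (w w' : Pl F) (Q : Pl L), OvL w Q → OvL w' Q → w = w' := by
    intro w w' Q h h'
    obtain ⟨u, -, hu⟩ := p1 Q
    rw [hu w h, hu w' h']
  have hQ : ∀ (w : Pl F), w ∉ T → ∀ Q : Pl L, OvL w Q →
      Q.valuation L (y : L) = if Q = P then WithZero.exp (-1 : ℤ) else 1 := by
    intro w hw Q hwQ
    have h1 : Q ∉ TL := by
      intro h
      obtain ⟨v', hv', hv'Q⟩ := (hTL Q).mp h
      rw [huniq w v' Q hwQ hv'Q] at hw
      exact hw hv'
    rw [val_exp, hy Q h1, oI_self]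
    split_ifs <;> simp
  have hpos : ∀ (w : Pl F) (x : Fˣ) (n : ℕ) (z : WithZero (Multiplicative ℤ)),
      w.valuation F (x : F) = z ^ n → ordv w x = - (n * WithZero.log z) := by
    intro w x n z h
    unfold ordv
    rw [h, WithZero.log_pow]
    simp
  have hgood : Good T (v.asIdeal ^ nv L v) (Nu F L y) := by
    intro w hw
    rw [oI_pow w v.ne_bot, oI_self]
    have hN : ((Nu F L y : Fˣ) : F) = Algebra.norm F (y : L) := rfl
    by_cases hwv : w = v
    · subst hwv
      rw [if_pos rfl, mul_one]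
      have h1 := (UNV F L w (hU w hv)).2 (y : L)
      rw [finprod_eq_single (fun Q : {Q : Pl L // OvL w Q} => (Q : Pl L).valuation L (y : L))
        ⟨P, hP⟩ ?_, hQ w hw P hP, if_pos rfl] at h1
      · rw [hpos w (Nu F L y) _ _ h1, WithZero.log_exp]
        ring
      · intro Q hQP
        rw [hQ w hw Q Q.2, if_neg (fun h => hQP (Subtype.ext h))]
    · rw [if_neg hwv, mul_zero]
      have h2 : ∀ Q : Pl L, OvL w Q → Q.valuation L (y : L) = 1 := by
        intro Q hwQ
        rw [hQ w hw Q hwQ, if_neg]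
        rintro rfl
        exact hwv (huniq w v _ hwQ hP)
      have h3 : w.valuation F (Algebra.norm F (y : L)) = 1 := p8 w _ h2
      rw [← hN] at h3
      rw [(val_one_iff w _).mp h3]; rfl
  have hcop : Cop B (v.asIdeal ^ nv L v) := by
    rw [cop_iff_oI (pow_ne_zero _ v.ne_bot)]
    intro w hw
    rw [oI_pow w v.ne_bot, oI_self, if_neg (by rintro rfl; exact hv hw), mul_zero]
  rw [← ev_pow EV, ev_ff K EV hCF hK' _ hcop _ hgood]
  unfold psi
  apply hK
  have := hR.norm y⁻¹ (fun t => (oI (t : Pl F) (v.asIdeal ^ nv L v) : ℤ) -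
    ordv (t : Pl F) (Nu F L y)) ?_
  · rwa [map_inv] at this
  · intro t
    apply dvd_sub
    · rw [oI_pow _ v.ne_bot, oI_self]
      by_cases h : (t : Pl F) = v
      · rw [if_pos h, h]; simp
      · rw [if_neg h]; simp
    · have htB : (t : Pl F) ∉ B := Finset.disjoint_left.mp hTB t.2
      have h1 := (UNV F L t (hU t htB)).2 (y : L)
      rw [hpos t (Nu F L y) _ _ h1]
      exact (dvd_mul_right _ _).neg_right

end

/-! ### Every element is the value at an ideal -/

section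

variable {L : Type} [Field L] [NumberField L] [Algebra F L] [IsGalois F L]

theorem val_ideal (POV : ST_POV) (APX : ST_APX) (EV : ST_EV) {B T : Finset (Pl F)}
    (hTB : Disjoint T B) (hCF : ClGen F T) {N : ℕ} (hN : 0 < N)
    {R : Subgroup (Fˣ × (T → Multiplicative ℤ))} (hR : IsRel F L B T N R)
    (x : Fˣ) (a : T → Multiplicative ℤ) : ∃ J : Ideal (𝓞 F),
    ∀ K : (Fˣ × (T → Multiplicative ℤ)) →* ℂˣ, (∀ w ∈ R, K w = 1) →
      K (x, a) = ev (ff K B) J := by
  obtain ⟨p1, p2, -⟩ := POV F L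
  have hBT : ∀ v ∈ B, v ∉ T := fun v hv => Finset.disjoint_right.mp hTB hv
  have hTB' : ∀ v ∈ T, v ∉ B := fun v hv => Finset.disjoint_left.mp hTB hv
  -- step 1
  obtain ⟨e₁, he₁⟩ := exists_good hCF (prod_ne B (fun v => (ordv v x).toNat))
  obtain ⟨e₂, he₂⟩ := exists_good hCF (prod_ne B (fun v => (- ordv v x).toNat))
  set e : Fˣ := e₂ * e₁⁻¹ with he
  have heo : ∀ w : Pl F, w ∉ T → ordv w e = if w ∈ B then - ordv w x else 0 := by
    intro w hw
    rw [he, ordv_mul, ordv_inv, he₁ w hw, he₂ w hw, oI_prod, oI_prod]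
    split_ifs
    · have := Int.toNat_sub_toNat_neg (ordv w x)
      push_cast at *
      linarith
    · simp
  have heSU : e ∈ SU F (B ∪ T) := by
    intro w hw
    rw [Finset.mem_union, not_or] at hw
    rw [val_one_iff, heo w hw.2, if_neg hw.1]
  set x₁ : Fˣ := x * e with hx₁
  have hx₁B : ∀ v ∈ B, ordv v x₁ = 0 := by
    intro v hv
    rw [hx₁, ordv_mul, heo v (hBT v hv), if_pos hv]
    ring
  -- step 2
  obtain ⟨n, d, hd, hnd⟩ := IsFractionRing.div_surjective (A := 𝓞 F) (x₁ : F)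
  have hd0 : d ≠ 0 := nonZeroDivisors.ne_zero hd
  have hn0 : n ≠ 0 := by
    rintro rfl
    rw [map_zero, zero_div] at hnd
    exact x₁.ne_zero hnd.symm
  have hx₁' : x₁ = iu n hn0 * (iu d hd0)⁻¹ := by
    ext
    rw [← hnd]
    simp [iu, div_eq_mul_inv]
  have hfin : {w : Pl F | w.asIdeal ∣ Ideal.span {n}}.Finite := Ideal.finite_factors (span_ne hn0)
  set B' : Finset (Pl F) := B ∪ hfin.toFinset with hB'
  set N' : ℕ := N + ∑ w ∈ B', oI w (Ideal.span {n}) with hN'
  obtain ⟨z, hz0, hzB, hzs⟩ := APX F B' N' (fun v => if v ∈ B then 1 else 0) (fun _ => 1)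
    (fun _ => one_ne_zero)
  have hzray : Ray B N z := by
    refine ⟨hz0, fun σ => by simpa using hzs σ, fun v hv => ?_⟩
    have h1 := hzB v (Finset.mem_union_left _ hv)
    simp only [if_pos hv] at h1
    exact Ideal.pow_le_pow_right (by omega) h1
  have hXo : ∀ w : Pl F, 0 ≤ ordv w (iu z hz0 * x₁⁻¹) := by
    intro w
    rw [ordv_mul, ordv_inv, ordv_int]
    by_cases hwB : w ∈ B
    · rw [hx₁B w hwB]; positivity
    · have h1 : ordv w x₁ ≤ oI w (Ideal.span {n}) := by
        rw [hx₁', ordv_mul, ordv_inv, ordv_int, ordv_int]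
        have : (0 : ℤ) ≤ oI w (Ideal.span {d}) := by positivity
        linarith
      by_cases hwB' : w ∈ B'
      · have h2 := hzB w hwB'
        simp only [if_neg hwB, sub_zero] at h2
        have h3 : N' ≤ oI w (Ideal.span {z}) := by
          rw [← oI_le (span_ne hz0), Ideal.span_singleton_le_iff_mem]; exact h2
        have h4 : oI w (Ideal.span {n}) ≤ ∑ w ∈ B', oI w (Ideal.span {n}) :=
          Finset.single_le_sum (f := fun w => oI w (Ideal.span {n})) (fun _ _ => Nat.zero_le _) hwB'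
        have h5 : ((oI w (Ideal.span {n}) : ℕ) : ℤ) ≤ (oI w (Ideal.span {z}) : ℕ) := by
          exact_mod_cast (by omega : oI w (Ideal.span {n}) ≤ oI w (Ideal.span {z}))
        linarith
      · have h2 : oI w (Ideal.span {n}) = 0 := by
          by_contra h3
          apply hwB'
          rw [hB', Finset.mem_union, Set.Finite.mem_toFinset]
          right
          have h4 := (oI_le (span_ne hn0) w 1).mpr (by omega)
          rw [pow_one] at h4
          exact Ideal.dvd_iff_le.mpr h4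
        rw [h2] at h1
        have : (0 : ℤ) ≤ oI w (Ideal.span {z}) := by positivity
        push_cast at h1
        linarith
  -- step 3
  obtain ⟨X, hX⟩ := IsDedekindDomain.HeightOneSpectrum.mem_integers_of_valuation_le_one (R := 𝓞 F) F
    ((iu z hz0 * x₁⁻¹ : Fˣ) : F) (fun w => by
      rw [val_exp, ← WithZero.exp_zero, WithZero.exp_le_exp]
      have := hXo w
      linarith)
  have hX0 : X ≠ 0 := by
    rintro rfl
    rw [map_zero] at hX
    exact (iu z hz0 * x₁⁻¹ : Fˣ).ne_zero hX.symm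
  have hX' : iu X hX0 = iu z hz0 * x₁⁻¹ := by
    ext
    rw [← hX]
    rfl
  set a₁ : T → ℤ := fun t => Multiplicative.toAdd (a t) + ordv (t : Pl F) e with ha₁
  set c : Pl F → ℕ := fun w => if h : w ∈ T then
    (a₁ ⟨w, h⟩ + (nv L w : ℤ) * |a₁ ⟨w, h⟩|).toNat else 0 with hc
  have hnv : ∀ w : Pl F, 1 ≤ nv L w := by
    intro w
    have h1 := (p2 w).2.2
    have h2 : 0 < Module.finrank F L := Module.finrank_pos
    rcases Nat.eq_zero_or_pos (nv L w) with h3 | h3
    · rw [h3, zero_mul] at h1; omega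
    · exact h3
  have hcT : ∀ t : T, ((c (t : Pl F) : ℕ) : ℤ) = a₁ t + (nv L (t : Pl F) : ℤ) * |a₁ t| := by
    intro t
    rw [hc]
    simp only [t.2, dif_pos]
    apply Int.toNat_of_nonneg
    have h1 : (1 : ℤ) ≤ nv L (t : Pl F) := by exact_mod_cast hnv t
    have h2 := neg_abs_le (a₁ t)
    have h3 := abs_nonneg (a₁ t)
    nlinarith
  have hJ0 : Ideal.span {X} * ∏ v ∈ T, v.asIdeal ^ c v ≠ ⊥ := mul_ne_zero (span_ne hX0) (prod_ne T c)
  have hJo : ∀ w : Pl F, oI w (Ideal.span {X} * ∏ v ∈ T, v.asIdeal ^ c v) =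
      oI w (Ideal.span {X}) + if w ∈ T then c w else 0 := by
    intro w
    rw [oI_mul w (span_ne hX0) (prod_ne T c), oI_prod]
  refine ⟨Ideal.span {X} * ∏ v ∈ T, v.asIdeal ^ c v, fun K hK => ?_⟩
  have hK' : ∀ x ∈ SU F T, K (x, fun t : T => Multiplicative.ofAdd (ordv (t : Pl F) x)) = 1 := by
    intro x hx
    exact hK _ (hR.unit x (fun v hv => hx v (fun h => hv (Finset.mem_union_right _ h))))
  have hcop : Cop B (Ideal.span {X} * ∏ v ∈ T, v.asIdeal ^ c v) := by
    rw [cop_iff_oI hJ0]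
    intro v hv
    rw [hJo, if_neg (hBT v hv), add_zero]
    have h1 : ((oI v (Ideal.span {X}) : ℕ) : ℤ) = 0 := by
      rw [← ordv_int v X hX0, hX', ordv_mul, ordv_inv, hx₁B v hv, ordv_int]
      have h2 : oI v (Ideal.span {z}) = 0 := by
        by_contra h3
        have h4 := (oI_le (span_ne hz0) v 1).mpr (by omega)
        rw [pow_one, Ideal.span_singleton_le_iff_mem] at h4
        exact ray_notMem hN hzray v hv h4
      rw [h2]; simp
    exact_mod_cast h1
  have hgood : Good T (Ideal.span {X} * ∏ v ∈ T, v.asIdeal ^ c v) (iu X hX0) := by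
    intro w hw
    rw [hJo, if_neg hw, add_zero, ordv_int]
  rw [ev_ff K EV hCF hK' _ hcop _ hgood]
  unfold psi
  have h1 : K (e, fun t : T => Multiplicative.ofAdd (ordv (t : Pl F) e)) = 1 := hK _ (hR.unit e heSU)
  have h2 : K (iu z hz0, 1) = 1 := by
    apply hK
    apply hR.ray
    · exact hzray.2.1
    · intro v hv
      have h3 : ((iu z hz0 : Fˣ) : F) - 1 = algebraMap (𝓞 F) F (z - 1) := by
        rw [map_sub, map_one]; rfl
      rw [h3, IsDedekindDomain.HeightOneSpectrum.valuation_of_algebraMap,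
        IsDedekindDomain.HeightOneSpectrum.intValuation_le_pow_iff_mem]
      exact hzray.2.2 v hv
  have h3 : K (1, fun t : T => Multiplicative.ofAdd ((nv L (t : Pl F) : ℤ) * |a₁ t|)) = 1 := by
    apply hK
    have := hR.norm 1 (fun t => (nv L (t : Pl F) : ℤ) * |a₁ t|) (fun t => dvd_mul_right _ _)
    rwa [map_one] at this
  have h4 : K (x, a) = K ((x, a) * (e, fun t : T => Multiplicative.ofAdd (ordv (t : Pl F) e)) *
      (iu z hz0, 1)⁻¹ * (1, fun t : T => Multiplicative.ofAdd ((nv L (t : Pl F) : ℤ) * |a₁ t|))) := by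
    rw [map_mul, map_mul, map_mul, map_inv, h1, h2, h3]
    simp
  rw [h4]
  congr 1
  refine Prod.ext ?_ ?_
  · show x * e * (iu z hz0)⁻¹ * 1 = (iu X hX0)⁻¹
    rw [hX', mul_inv, inv_inv, mul_one, ← hx₁, mul_comm]
  · funext t
    show a t * Multiplicative.ofAdd (ordv (t : Pl F) e) * (1 : Multiplicative ℤ)⁻¹ *
      Multiplicative.ofAdd ((nv L (t : Pl F) : ℤ) * |a₁ t|) = Multiplicative.ofAdd
        ((oI (t : Pl F) (Ideal.span {X} * ∏ v ∈ T, v.asIdeal ^ c v) : ℤ) -
          ordv (t : Pl F) (iu X hX0))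
    rw [hJo, if_pos t.2, ordv_int]
    rw [inv_one, mul_one]
    apply Multiplicative.toAdd.injective
    push_cast
    rw [toAdd_mul, toAdd_mul, toAdd_ofAdd, toAdd_ofAdd, toAdd_ofAdd, hcT]
    simp only [ha₁]
    ring

end

/-! ### The theorem -/

theorem card_chars (G : Type) [CommGroup G] [Finite G] : Nat.card (G →* ℂˣ) = Nat.card G := by
  have : NeZero (Monoid.exponent G) := ⟨Monoid.exponent_ne_zero_of_finite⟩
  exact CommGroup.card_monoidHom_of_hasEnoughRootsOfUnity G ℂ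

theorem st_THE (EV : ST_EV) (APX : ST_APX) (UNV : ST_UNV) (POV : ST_POV) : ST_THE := by
  intro F L _ _ _ _ _ _ B T TL hU hTB hTL hCF hCL N hN R hR hRi N' hNN' hfin
  have hQf : Finite ((Fˣ × (T → Multiplicative ℤ)) ⧸ R) := by
    rw [← Subgroup.finiteIndex_iff_finite_quotient]
    exact ⟨hRi⟩
  have hcard : Nat.card (((Fˣ × (T → Multiplicative ℤ)) ⧸ R) →* ℂˣ) = R.index := by
    exact card_chars ((Fˣ × (T → Multiplicative ℤ)) ⧸ R)
  have hKR : ∀ χ : ((Fˣ × (T → Multiplicative ℤ)) ⧸ R) →* ℂˣ, ∀ w ∈ R,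
      (χ.comp (QuotientGroup.mk' R)) w = 1 := by
    intro χ w hw
    rw [MonoidHom.comp_apply, QuotientGroup.mk'_apply, (QuotientGroup.eq_one_iff w).mpr hw, map_one]
  have hKR' : ∀ χ : ((Fˣ × (T → Multiplicative ℤ)) ⧸ R) →* ℂˣ, ∀ x ∈ SU F T,
      (χ.comp (QuotientGroup.mk' R)) (x, fun t : T => Multiplicative.ofAdd (ordv (t : Pl F) x)) = 1 := by
    intro χ x hx
    exact hKR χ _ (hR.unit x (fun v hv => hx v (fun h => hv (Finset.mem_union_right _ h))))
  have hmem : ∀ χ : ((Fˣ × (T → Multiplicative ℤ)) ⧸ R) →* ℂˣ,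
      ff (χ.comp (QuotientGroup.mk' R)) B ∈ XL L B N' := by
    intro χ
    refine ⟨⟨fun v hv => ff_B _ hv, fun x hx => ?_⟩, fun v hv =>
      norm_pow POV UNV EV hU hTB hTL hCF hCL hR _ (hKR χ) (hKR' χ) v hv⟩
    have hcop : Cop B (Ideal.span {x}) :=
      cop_span.mpr ⟨hx.1, ray_notMem (lt_of_lt_of_le hN hNN') hx⟩
    rw [ev_ff _ EV hCF (hKR' χ) _ hcop _ (good_int hx.1)]
    unfold psi
    have h1 : ((iu x hx.1)⁻¹, fun t : T => Multiplicative.ofAdd
        ((oI (t : Pl F) (Ideal.span {x}) : ℤ) - ordv (t : Pl F) (iu x hx.1))) =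
        ((iu x hx.1, 1) : Fˣ × (T → Multiplicative ℤ))⁻¹ := by
      refine Prod.ext rfl ?_
      funext t
      show Multiplicative.ofAdd ((oI (t : Pl F) (Ideal.span {x}) : ℤ) -
        ordv (t : Pl F) (iu x hx.1)) = (1 : Multiplicative ℤ)⁻¹
      rw [ordv_int, sub_self]
      rfl
    rw [h1, map_inv, inv_eq_one]
    apply hKR
    apply hR.ray
    · exact hx.2.1
    · intro v hv
      have h3 : ((iu x hx.1 : Fˣ) : F) - 1 = algebraMap (𝓞 F) F (x - 1) := by
        rw [map_sub, map_one]; rfl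
      rw [h3, IsDedekindDomain.HeightOneSpectrum.valuation_of_algebraMap,
        IsDedekindDomain.HeightOneSpectrum.intValuation_le_pow_iff_mem]
      exact Ideal.pow_le_pow_right hNN' (hx.2.2 v hv)
  have hinj : Function.Injective (fun χ : ((Fˣ × (T → Multiplicative ℤ)) ⧸ R) →* ℂˣ =>
      (⟨ff (χ.comp (QuotientGroup.mk' R)) B, hmem χ⟩ : XL L B N')) := by
    intro χ χ' h
    have h' : ff (χ.comp (QuotientGroup.mk' R)) B = ff (χ'.comp (QuotientGroup.mk' R)) B :=
      congrArg Subtype.val h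
    apply QuotientGroup.monoidHom_ext
    ext1 ⟨x, a⟩
    obtain ⟨J, hJ⟩ := val_ideal POV APX EV hTB hCF hN hR x a
    rw [hJ _ (hKR χ), hJ _ (hKR χ'), h']
  have : Finite (XL L B N') := hfin
  rw [← hcard, ← Nat.card_coe_set_eq]
  exact Nat.card_le_card_of_injective _ hinj

end Pool.Agent.Helper28.TH
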